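import Pool.Agent.X321.GG.Fin

/-!
# Goncharov's complexes `Γ(F,n)` over the integers: distribution relations and divisibility

* For every field `F` with a primitive `N`-th root of unity `ζ` and all `n ≥ 2` the distribution
  relation `{x^N}_n = N^(n-1) ∑_i {ζ^i x}_n` holds in `B_n(F)`, without tensoring with `ℚ`.
* Let `N ≥ 1` be such that for every prime divisor `l` of `N` every element of `F` is an `l`-th
  power and `F` has characteristic `l` or contains a primitive `l`-th root of unity. Then `B_n(F)`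
  is `N`-divisible, the terms `B_m(F) ⊗ Λ^j F^*` (`j ≥ 1`) and `Λ^j F^*` (`j ≥ 2`) of the complexes
  `Γ(F,n)` are uniquely `N`-divisible, and `H^1(Γ(F,n))` is `N`-divisible.
* For algebraically closed `F` the map `Γ(F,n) → Γ(F,n) ⊗ ℚ` is an isomorphism in all degrees
  `≥ 2` and surjective in degree `1`: the cohomology in the degrees `≥ 2` is a `ℚ`-vector space
  before tensoring with `ℚ`, like the groups `gr^γ_n K_{2n-i}(F)`, `i ≥ 2`, of an algebraically
  closed field (Suslin).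

The definitions are in `Pool/Agent/H39R2/GonP/Defs.lean` and `Pool/Agent/X321/GG/Dist.lean`
(`RootClosed`).
-/

set_option autoImplicit false

namespace Pool.Agent.Results.MP_9c6ec7_al.DivisibilityAlgClosed

open GonP Pool.Agent.X321.GG

theorem result (F : Type) [Field F] :
    -- the distribution relations in `B_n(F)`, over the integers
    (∀ (N : ℕ) (ζ : F), 0 < N → IsPrimitiveRoot ζ N → ∀ n : ℕ, 2 ≤ n → ∀ x : F,
      toQuo (R n F) (gen (some (x ^ N))) =
        N ^ (n - 1) • ∑ i ∈ Finset.range N, toQuo (R n F) (gen (some (ζ ^ i * x)))) ∧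
    -- divisibility by `N`
    (∀ N : ℕ, 0 < N → (∀ l : ℕ, l.Prime → l ∣ N → RootClosed F l) →
      -- `B_n(F)` is `N`-divisible
      (∀ n : ℕ, 1 ≤ n → ∀ b : B n F, ∃ c : B n F, N • c = b) ∧
      -- `B_n(F) ⊗ Λ^j F^*`, `j ≥ 1`, is uniquely `N`-divisible
      (∀ n j : ℕ, 1 ≤ n → 1 ≤ j →
        Function.Bijective (fun u : Tens (B n F) (ExtPow (UV F) j) => N • u)) ∧
      -- `Λ^j F^*`, `j ≥ 2`, is uniquely `N`-divisible
      (∀ j : ℕ, 2 ≤ j → Function.Bijective (fun u : ExtPow (UV F) j => N • u)) ∧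
      -- the kernel of `δ_n` modulo `R_n(F)` is `N`-divisible, `n = 2` and `n = m + 3`
      (∀ α ∈ A2 F, ∃ β ∈ A2 F, toQuo (R 2 F) α = N • toQuo (R 2 F) β) ∧
      ∀ m : ℕ, ∀ α ∈ AS F (R (m + 2) F), ∃ β ∈ AS F (R (m + 2) F),
        toQuo (R (m + 3) F) α = N • toQuo (R (m + 3) F) β) ∧
    -- algebraically closed fields: comparison of `Γ(F,n)` and `Γ(F,n) ⊗ ℚ`
    (IsAlgClosed F →
      (∀ n : ℕ, 1 ≤ n → Function.Surjective (toRat : B n F → TensRat (B n F))) ∧
      (∀ n j : ℕ, 1 ≤ n → 1 ≤ j →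
        Function.Bijective (toRat : Tens (B n F) (ExtPow (UV F) j) → TQ F n j)) ∧
      ∀ j : ℕ, 2 ≤ j → Function.Bijective (toRat : ExtPow (UV F) j → LQ F j)) := by
  have hB : ∀ N : ℕ, 0 < N → (∀ l : ℕ, l.Prime → l ∣ N → RootClosed F l) → ∀ n : ℕ, 1 ≤ n →
      ∀ b : B n F, ∃ c : B n F, N • c = b := fun N hN h n hn =>
    surj_primes N hN (fun l hl hd => B_div l hl (h l hl hd) n hn)
  have hT : ∀ N : ℕ, 0 < N → (∀ l : ℕ, l.Prime → l ∣ N → RootClosed F l) → ∀ n j : ℕ, 1 ≤ n →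
      1 ≤ j → Function.Bijective (fun u : Tens (B n F) (ExtPow (UV F) j) => N • u) := by
    intro N hN h n j hn hj
    obtain ⟨j, rfl⟩ := Nat.exists_eq_add_of_le' hj
    exact bij_primes N hN (fun l hl hd => Tens_bij l hl (h l hl hd) n j hn)
  have hL : ∀ N : ℕ, 0 < N → (∀ l : ℕ, l.Prime → l ∣ N → RootClosed F l) → ∀ j : ℕ,
      2 ≤ j → Function.Bijective (fun u : ExtPow (UV F) j => N • u) := by
    intro N hN h j hj
    obtain ⟨j, rfl⟩ := Nat.exists_eq_add_of_le' hj
    exact bij_primes N hN (fun l hl hd => Ext_bij l hl (h l hl hd) j)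
  refine ⟨fun N ζ hN hζ n hn x => ?_, fun N hN h => ⟨hB N hN h, hT N hN h, hL N hN h,
    deg_one_primes _ _ N hN (fun l hl hd α hα => deg_one2 l hl (h l hl hd) α hα),
    fun m => deg_one_primes _ _ N hN (fun l hl hd α hα => deg_oneS l hl (h l hl hd) m α hα)⟩,
    fun hF => ?_⟩
  · obtain ⟨m, rfl⟩ := Nat.exists_eq_add_of_le' hn
    exact distribution N hN ζ hζ m x
  · have hR : ∀ N : ℕ, ∀ l : ℕ, l.Prime → l ∣ N → RootClosed F l :=
      fun _ l hl _ => rootClosed F l hl
    exact ⟨fun n hn => toRat_surj (fun N hN => hB N hN (hR N) n hn),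
      fun n j hn hj => ⟨toRat_inj (fun N hN a ha => bij_tf (hT N hN (hR N) n j hn hj) a ha),
        toRat_surj (fun N hN => (hT N hN (hR N) n j hn hj).2)⟩,
      fun j hj => ⟨toRat_inj (fun N hN a ha => bij_tf (hL N hN (hR N) j hj) a ha),
        toRat_surj (fun N hN => (hL N hN (hR N) j hj).2)⟩⟩

end Pool.Agent.Results.MP_9c6ec7_al.DivisibilityAlgClosed
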