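import Pool.Agent.X321.UP.Fin

/-!
# Goncharov's complexes and existentially closed subfields

Let `F` be existentially closed in `F'` (every finitely generated `F`-subalgebra of `F'` has an
`F`-rational point). Then, for all `n ≥ 2`,

* `B_n(F) → B_n(F')` is injective (over `ℤ`);
* `Γ(F,n) ⊗ ℚ → Γ(F',n) ⊗ ℚ` is injective in every degree and induces injective maps
  `H^i(Γ(F,n) ⊗ ℚ) → H^i(Γ(F',n) ⊗ ℚ)` for all `i`.

This applies to all extensions of algebraically closed fields, and to the function fields `F'` of
all varieties over `F` with a Zariski dense set of `F`-rational points, in particular to purely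
transcendental extensions of infinite fields. The same holds for the groups
`gr^γ_n K_{2n-i}(F) ⊗ ℚ`.

Idea: `F'` embeds into an ultrapower `F*` of `F`; the relation groups `R_n` are compatible with
ultrapowers, by induction on `n`, because `F*(t)` embeds into `F(t)*` compatibly with the values at
`t = 0` and `t = 1`.

The definitions are in `Pool/Agent/H39R2/GonP/Defs.lean`, `Pool/Agent/TH358/GP/Defs.lean`
(`Induced`, `InducedL`, `InducedB`), `Pool/Agent/X321/UP/EC.lean` (`ExClosed`) and
`Pool/Agent/X321/UP/Fin.lean` (`CohInjective`).
-/

set_option autoImplicit false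

namespace Pool.Agent.Results.MP_9c6ec7_al.ExistentiallyClosed

open GonP Pool.Agent.TH358.GP Pool.Agent.X321.UP

theorem result :
    -- `F` existentially closed in `F'`: `B_n(F) → B_n(F')` is injective for all `n ≥ 2`, and the
    -- maps of the complexes `Γ(F,n) ⊗ ℚ → Γ(F',n) ⊗ ℚ`, `n ≥ 2`, are injective on the terms and on
    -- the cohomology in all degrees
    (∀ (F F' : Type) [Field F] [Field F'] [Algebra F F'], ExClosed F F' →
      (∀ n : ℕ, 2 ≤ n → ∃ T : B n F → B n F', InducedB (algebraMap F F') n T ∧
        Function.Injective T) ∧
      CohInjective (algebraMap F F')) ∧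
    -- algebraically closed fields are existentially closed in all extensions
    (∀ (F F' : Type) [Field F] [Field F'] [Algebra F F'], IsAlgClosed F → ExClosed F F') ∧
    -- `F` is existentially closed in the quotient field `F'` of every integral domain `R ⊇ F` with
    -- a dense set of `F`-rational points
    (∀ (F R F' : Type) [Field F] [CommRing R] [IsDomain R] [Algebra F R] [Field F'] [Algebra F F']
      [Algebra R F'] [IsScalarTower F R F'] [IsFractionRing R F'],
      (∀ q : R, q ≠ 0 → ∃ s : R →ₐ[F] F, s q ≠ 0) → ExClosed F F') ∧
    -- infinite fields are existentially closed in all purely transcendental extensions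
    (∀ (F F' σ : Type) [Field F] [Infinite F] [Field F'] [Algebra F F']
      [Algebra (MvPolynomial σ F) F'] [IsScalarTower F (MvPolynomial σ F) F']
      [IsFractionRing (MvPolynomial σ F) F'], ExClosed F F') :=
  ⟨fun F F' _ _ _ h => ⟨fun n hn => B_inj h n hn, cohInjective h⟩,
    fun F F' _ _ _ _ => exClosed_algClosed F F',
    fun F R F' _ _ _ _ _ _ _ _ _ h => exClosed_of_points F R F' h,
    fun F F' σ _ _ _ _ _ _ _ => exClosed_mvPoly F F' σ⟩

end Pool.Agent.Results.MP_9c6ec7_al.ExistentiallyClosed
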