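import Pool.Agent.X321.NT.Nat
set_option autoImplicit false

/-!
# Natural maps between rational Milnor K-groups and the condition in degree `n` in Q1
-/

namespace Pool.Agent.Results.MP_9c6ec7_al.NaturalDegreeN

open Pool.Agent.TH826.MK Pool.Agent.TH826.DC Pool.Agent.X321.NT

theorem result :
    (∀ (n : ℕ) (H G : ℤ → FieldFunctor) (e : NatIso (Mil n) (H n)) (s : NatIso (Mil n) (G n))
      (Φ : ∀ i, NatIso (H i) (G i)), ∃ q : ℕ → ℚ, (∀ p, q p ≠ 0) ∧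
        Scaled q s.hom (e.hom.comp (Φ n).hom) ∧
        ∃ Ψ : ∀ i, NatIso (H i) (G i), (∀ i, Scaled q (Ψ i).hom (Φ i).hom) ∧
          Scaled (fun _ => 1) s.hom (e.hom.comp (Ψ n).hom)) ∧
    (∀ (n : ℕ) (G : FieldFunctor) (s : NatIso (Mil n) G) (T : NatHom (Mil n) G),
      ∃ q : ℕ → ℚ, Scaled q s.hom T) ∧
    (∀ (n d : ℕ) (T : NatHom (Mil n) (Mil (d + n))), IsMul T) ∧
    (∀ (n m : ℕ) (T : NatHom (Mil (n + 1 + m)) (Mil m)) (F : Type) [Field F]
      (x : (Mil (n + 1 + m)).obj F), T.app F x = 0) :=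
  ⟨degree_n', unique_hom, kappa, vanish⟩

end Pool.Agent.Results.MP_9c6ec7_al.NaturalDegreeN
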