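import Pool.Agent.X321.HS.Cls

set_option autoImplicit false

/-!
# Specialization of Goncharov's complexes `Γ(F,n) ⊗ ℚ` and injectivity in field extensions

* The differentials of the complexes `Γ(F,n) ⊗ ℚ`, `n ≥ 2`, exist and are unique, for all fields.
* The place of the field `F((t^ℝ))` of generalized power series with real exponents maps the
  relation group `R_n(F((t^ℝ)))` to `R_n(F)`, up to torsion, for all fields `F` and all `n ≥ 2`.
* Hence the complexes `Γ(F,n) ⊗ ℚ` inject into `Γ(F',n) ⊗ ℚ`, with injective maps on cohomology, for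
  all extensions `F'` of `F` in the smallest class which contains the `F((t^ℝ))`, and is closed under
  composition and under passing to intermediate fields: for instance `F(X)`, `F((X))`,
  `F((x_1)) ... ((x_d))` and all their subfields containing `F`.
* For an arbitrary extension `F'` of a field `F`, every class of `H^i(Γ(F,n) ⊗ ℚ)` which vanishes in
  `H^i(Γ(F',n) ⊗ ℚ)` vanishes in `H^i(Γ(Ω,n) ⊗ ℚ)`, where `Ω` is the algebraic closure of `F`.

Idea for the second statement: for `α(s)` in `ℤ[P^1]` of `F((t^ℝ))(s)` with `δ_n α = 0` let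
`α_γ(u)` be the residue of `α(t^γ u)`, for real `γ`; by induction `δ_n α_γ = 0`, up to torsion, so
the class of `α_γ(1)` modulo `R_n(F)` is equal to the classes of `α_γ(0)` and `α_γ(∞)`, which are
the classes of `α_γ'(1)` for `γ'` slightly larger, and slightly smaller than `γ`. It is a locally
constant function of `γ`, so constant, and for large `γ` it is the class of the residue of `α(0)`.

The definitions are in `Pool/Agent/H39R2/GonP/Defs.lean` (`R`, `Differentials`),
`Pool/Agent/TH358/GP/Defs.lean` (`Induced`, `InducedL`), `Pool/Agent/X321/UP/Fin.lean`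
(`CohInjective`), `Pool/Agent/X321/HS/Base.lean` (`pl`, `plP`), `Pool/Agent/X321/HS/Retr.lean`
(`PlaceExt`) and `Pool/Agent/X321/HS/Cls.lean` (`KernelLe`).
-/

namespace Pool.Agent.Results.MP_9c6ec7_al.RationalPlaces

open GonP Pool.Agent.X321.HS
open Pool.Agent.X321.UP (CohInjective)

theorem result :
    -- the differentials of the complexes `Γ(F,n) ⊗ ℚ`, `n ≥ 2`, exist and are unique
    (∀ (F : Type) [Field F], ∃ D : Differentials F, ∀ D' : Differentials F, D' = D) ∧
    -- specialization: the place of `F((t^ℝ))` maps `R_n(F((t^ℝ)))` to `R_n(F)`, up to torsion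
    (∀ (F : Type) [Field F] (n : ℕ), 2 ≤ n → ∀ r ∈ R n (HahnSeries ℝ F),
      ∃ N : ℕ, 0 < N ∧ N • Finsupp.mapDomain plP r ∈ R n F) ∧
    -- injectivity on all terms and on the cohomology
    (∀ (F F' : Type) [Field F] [Field F'] (φ : F →+* F'), PlaceExt φ → CohInjective φ) ∧
    -- examples
    (∀ (F : Type) [Field F], PlaceExt (RatFunc.C : F →+* RatFunc F) ∧
      PlaceExt (HahnSeries.C : F →+* LaurentSeries F)) ∧
    -- composition and intermediate fields
    (∀ (F F' F'' : Type) [Field F] [Field F'] [Field F''] (φ : F →+* F') (φ' : F' →+* F''),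
      (CohInjective φ → CohInjective φ' → CohInjective (φ'.comp φ)) ∧
      (CohInjective (φ'.comp φ) → CohInjective φ)) ∧
    -- arbitrary extensions: what dies in `F'` dies in the algebraic closure of `F`
    ∀ (F F' : Type) [Field F] [Field F'] (φ : F →+* F'),
      KernelLe φ (algebraMap F (AlgebraicClosure F)) :=
  ⟨fun F _ => exists_unique_D F, fun F _ n hn r hr => special F n hn r hr,
    fun F F' _ _ φ h => by
      obtain ⟨T⟩ := h.retr
      exact cohInj T,
    fun F _ => ⟨placeExt_ratFunc F, placeExt_laurent F⟩,
    fun F F' F'' _ _ _ φ φ' => ⟨cohInj_comp φ φ', cohInj_sub φ φ'⟩,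
    fun F F' _ _ φ => kernel_algClosure φ⟩

end Pool.Agent.Results.MP_9c6ec7_al.RationalPlaces
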